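import Pool.Agent.Helper64.CT.Pub
import Pool.Agent.Helper64.HG.Stmts

/-! Helly circle graphs without triangles (MP_866009_co): definitions and basic lemmas. -/

set_option autoImplicit false

namespace Pool.Agent.Helper64.CT

open Pool.Agent.Helper64.HG (Ovl Model Circ IC HellyCircle)

variable {V : Type}

/-- triangle-free -/
def TF (G : SimpleGraph V) : Prop := ∀ a b c : V, G.Adj a b → G.Adj b c → ¬ G.Adj a c

/-- a system of 2-colourings as in `CII` -/
def Sys (G : SimpleGraph V) (s : V → V → Bool) : Prop :=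
  ∀ x, (∀ y z, Comp G x y z → s x y = s x z) ∧ ∀ y z, Conf G x y z → s x y ≠ s x z

/-- the edges between `A` and its complement form a complete bipartite graph -/
def Cross (G : SimpleGraph V) (A : Set V) : Prop :=
  ∀ a ∈ A, ∀ a' ∈ A, ∀ b, b ∉ A → ∀ b', b' ∉ A → G.Adj a b → G.Adj a' b' → G.Adj a b'

/-- a split of `G` -/
def Split (G : SimpleGraph V) (A : Set V) : Prop := Cross G A ∧ A.Nontrivial ∧ Aᶜ.Nontrivial

/-- `G` has no split -/
def Prime (G : SimpleGraph V) : Prop := ∀ A : Set V, ¬ Split G A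

/-- the component of `y` is below the component of `z`: they share an attachment and no vertex in
the component of `z` is mixed on the attachments of the component of `y` -/
def Le (G : SimpleGraph V) (x y z : V) : Prop :=
  (∃ n, n ∈ Att G x y ∧ n ∈ Att G x z) ∧ ∀ u, Comp G x z u → ¬ Mixed G u (Att G x y)

/-- same cluster: connected by a chain of conflicting components -/
def Clu (G : SimpleGraph V) (x : V) : V → V → Prop :=
  Relation.ReflTransGen (fun y z => Comp G x y z ∨ Conf G x y z)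

/-- for nonadjacent `a ≠ c`: the component of `y` in `G - N[c]` is not that of `a` and all its
attachments are adjacent to `a` -/
def Alpha (G : SimpleGraph V) (a c y : V) : Prop :=
  y ∈ Far G c ∧ ¬ Comp G c a y ∧ ∀ n ∈ Att G c y, G.Adj a n

/-- `x` is inside `y` -/
def Ins (l r : V → ℝ) (y x : V) : Prop := l y < l x ∧ r x < r y

/-- interval overlap model of the subgraph induced by `S` -/
structure MOn (G : SimpleGraph V) (S : Set V) (l r : V → ℝ) : Prop where
  lt : ∀ v ∈ S, l v < r v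
  injl : ∀ u ∈ S, ∀ v ∈ S, l u = l v → u = v
  injr : ∀ u ∈ S, ∀ v ∈ S, r u = r v → u = v
  ne : ∀ u ∈ S, ∀ v ∈ S, l u ≠ r v
  adj : ∀ u ∈ S, ∀ v ∈ S, (G.Adj u v ↔ Ovl l r u v)

/-- the model realizes the sides `s`; `ε y` is the value of `s y` for the inside of `y` -/
def Rlz (G : SimpleGraph V) (S : Set V) (l r : V → ℝ) (s : V → V → Bool) (ε : V → Bool) : Prop :=
  ∀ y ∈ S, ∀ x ∈ S, x ∈ Far G y → (Ins l r y x ↔ s y x = ε y)

/-- exactly one of three propositions -/
def Ex1 (P Q R : Prop) : Prop := (P ∧ ¬ Q ∧ ¬ R) ∨ (¬ P ∧ Q ∧ ¬ R) ∨ (¬ P ∧ ¬ Q ∧ R)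

/-- `s` is a separation system: `s c` is constant on the components of `G - N[c]`, and for three
neighbours of a vertex exactly one separates the other two -/
def SNS (G : SimpleGraph V) (s : V → V → Bool) : Prop :=
  (∀ c x y, x ∈ Far G c → y ∈ Far G c → G.Adj x y → s c x = s c y) ∧
  ∀ n a b c, G.Adj n a → G.Adj n b → G.Adj n c → a ≠ b → a ≠ c → b ≠ c →
    Ex1 (s c a ≠ s c b) (s a b ≠ s a c) (s b a ≠ s b c)

/-! ### Basic lemmas -/

theorem Comp.left {G : SimpleGraph V} {x y z : V} (h : Comp G x y z) : y ∈ Far G x := h.1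

theorem Comp.right {G : SimpleGraph V} {x y z : V} (h : Comp G x y z) : z ∈ Far G x := h.2.1

theorem Comp.refl {G : SimpleGraph V} {x y : V} (h : y ∈ Far G x) : Comp G x y y :=
  ⟨h, h, SimpleGraph.Reachable.refl _⟩

theorem Comp.symm {G : SimpleGraph V} {x y z : V} (h : Comp G x y z) : Comp G x z y :=
  ⟨h.2.1, h.1, h.2.2.symm⟩

theorem Comp.trans {G : SimpleGraph V} {x y z w : V} (h : Comp G x y z) (h' : Comp G x z w) :
    Comp G x y w :=
  ⟨h.1, h'.2.1, h.2.2.trans h'.2.2⟩

theorem Comp.step {G : SimpleGraph V} {x y z w : V} (h : Comp G x y z) (hw : w ∈ Far G x)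
    (ha : G.Adj z w) : Comp G x y w :=
  ⟨h.1, hw, h.2.2.trans (SimpleGraph.Adj.reachable (by simpa using ha))⟩

theorem Comp.adj {G : SimpleGraph V} {x z w : V} (hz : z ∈ Far G x) (hw : w ∈ Far G x)
    (ha : G.Adj z w) : Comp G x z w := (Comp.refl hz).step hw ha

/-- induction along a component -/
theorem Comp.ind {G : SimpleGraph V} {x y z : V} (h : Comp G x y z) (P : V → Prop) (h0 : P y)
    (hs : ∀ z w, Comp G x y z → P z → w ∈ Far G x → G.Adj z w → P w) : P z := by
  obtain ⟨hy, hz, hr⟩ := h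
  have key : ∀ w : Far G x, Relation.ReflTransGen (G.induce (Far G x)).Adj ⟨y, hy⟩ w →
      P w.1 ∧ Comp G x y w.1 := by
    intro w hw
    induction hw with
    | refl => exact ⟨h0, Comp.refl hy⟩
    | @tail b c _ hbc ih =>
      have hbc' : G.Adj b.1 c.1 := by simpa using hbc
      exact ⟨hs b.1 c.1 ih.2 ih.1 c.2 hbc', ih.2.step c.2 hbc'⟩
  exact (key ⟨z, hz⟩ ((SimpleGraph.reachable_iff_reflTransGen _ _).1 hr)).1

theorem Far.symm {G : SimpleGraph V} {x y : V} (h : y ∈ Far G x) : x ∈ Far G y :=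
  ⟨fun e => h.1 e.symm, fun e => h.2 e.symm⟩

/-- the attachments depend only on the component -/
theorem Att.congr {G : SimpleGraph V} {x y z : V} (h : Comp G x y z) : Att G x y = Att G x z := by
  ext n
  constructor
  · rintro ⟨h1, u, hu, ha⟩
    exact ⟨h1, u, h.symm.trans hu, ha⟩
  · rintro ⟨h1, u, hu, ha⟩
    exact ⟨h1, u, h.trans hu, ha⟩

theorem Conf.symm {G : SimpleGraph V} {x y z : V} (h : Conf G x y z) : Conf G x z y :=
  ⟨fun h' => h.1 h'.symm, h.2.2, h.2.1⟩

theorem Conf.congr {G : SimpleGraph V} {x y z y' z' : V} (h : Conf G x y z) (hy : Comp G x y y')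
    (hz : Comp G x z z') : Conf G x y' z' := by
  obtain ⟨h1, ⟨u, hu, hm⟩, w, hw, hm'⟩ := h
  refine ⟨fun h' => h1 ((hy.trans h').trans hz.symm), ⟨u, hy.symm.trans hu, ?_⟩, w,
    hz.symm.trans hw, ?_⟩
  · rw [← Att.congr hz]; exact hm
  · rw [← Att.congr hy]; exact hm'

theorem Conf.far {G : SimpleGraph V} {x y z : V} (h : Conf G x y z) :
    y ∈ Far G x ∧ z ∈ Far G x := by
  obtain ⟨_, ⟨u, hu, _⟩, w, hw, _⟩ := h
  exact ⟨hu.left, hw.left⟩

theorem Clu.symm {G : SimpleGraph V} {x y z : V} (h : Clu G x y z) : Clu G x z y := by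
  induction h with
  | refl => exact Relation.ReflTransGen.refl
  | tail _ hbc ih =>
    refine Relation.ReflTransGen.head ?_ ih
    rcases hbc with h | h
    · exact Or.inl h.symm
    · exact Or.inr h.symm

theorem exists_Sys {G : SimpleGraph V} (h : CII G) : ∃ s, Sys G s := by
  choose s hs using h
  exact ⟨s, hs⟩

end Pool.Agent.Helper64.CT
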