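import Pool.Agent.Helper64.CT.Stmts

set_option autoImplicit false

namespace Pool.Agent.Helper64.CT

open Pool.Agent.Helper64.HG (Ovl Model Circ IC HellyCircle ST_GLUE0 ST_EMB)

theorem main_TF_induce {V : Type} {G : SimpleGraph V} (h : TF G) (S : Set V) :
    TF (G.induce S) := by
  intro a b c h1 h2 h3
  exact h a.1 b.1 c.1 (by simpa using h1) (by simpa using h2) (by simpa using h3)

theorem main_cross_compl {V : Type} {G : SimpleGraph V} {A : Set V} (h : Cross G A) :
    Cross G Aᶜ := by
  intro a ha a' ha' b hb b' hb' h1 h2
  simp only [Set.mem_compl_iff, not_not] at hb hb'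
  exact (h b' hb' b hb a' ha' a ha h2.symm h1.symm).symm

/-- an edge leaving a set -/
theorem main_edge {V : Type} {G : SimpleGraph V} (hp : G.Preconnected) (A : Set V) {x y : V}
    (hx : x ∈ A) (hy : y ∉ A) : ∃ a ∈ A, ∃ b, b ∉ A ∧ G.Adj a b := by
  by_contra hcon
  push Not at hcon
  have key : ∀ w, Relation.ReflTransGen G.Adj x w → w ∈ A := by
    intro w hw
    induction hw with
    | refl => exact hx
    | @tail b c _ hbc ih =>
      by_contra hc
      exact hcon b ih c hc hbc
  exact hy (key y ((SimpleGraph.reachable_iff_reflTransGen _ _).1 (hp x y)))

theorem st_MAIN (hSPG : ST_SPG) (hHER : ST_HER) (hEX0 : ST_EX0) (hEX1 : ST_EX1) (hPRI : ST_PRI)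
    (hSN : ST_SN) (hGL : ST_GLUE0) : ST_MAIN := by
  have key : ∀ n, ∀ (V : Type) [Finite V] (G : SimpleGraph V), Nat.card V = n → TF G → CI G →
      CII G → Circ G := by
    intro n
    induction n using Nat.strong_induction_on with
    | _ n ih =>
      intro V _ G hn hT h1 h2
      have ihS : ∀ S : Set V, S ≠ Set.univ →
          (∀ x y z : S, Comp G x.1 y.1 z.1 → Comp (G.induce S) x y z) → Circ (G.induce S) := by
        intro S hS hE
        obtain ⟨h1', h2'⟩ := hHER V G S hE h1 h2
        refine ih (Nat.card S) ?_ S (G.induce S) rfl (main_TF_induce hT S) h1' h2'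
        rw [← hn]
        have h3 : S.ncard < (Set.univ : Set V).ncard :=
          Set.ncard_lt_ncard (Set.ssubset_univ_iff.2 hS) (Set.toFinite _)
        rwa [Set.ncard_univ] at h3
      by_cases hp : G.Preconnected
      · by_cases hpr : Prime G
        · obtain ⟨s, hs⟩ := hPRI V G hp hT h1 h2 hpr
          exact hSN V G s hp hT hs
        · unfold Prime at hpr
          push Not at hpr
          obtain ⟨A, hc, hA, hA'⟩ := hpr
          obtain ⟨x, hx, x', hx', hxx⟩ := hA
          obtain ⟨y, hy, y', hy', hyy⟩ := hA'
          obtain ⟨a, ha, b, hb, hab⟩ := main_edge hp A hx hy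
          refine hSPG V G A a b hc ha hb hab ?_ ?_
          · apply ihS
            · intro hu
              have e1 : y ∈ insert b A := hu ▸ Set.mem_univ y
              have e2 : y' ∈ insert b A := hu ▸ Set.mem_univ y'
              have f1 : y = b := by
                rcases e1 with e1 | e1
                · exact e1
                · exact absurd e1 hy
              have f2 : y' = b := by
                rcases e2 with e2 | e2
                · exact e2
                · exact absurd e2 hy'
              exact hyy (f1.trans f2.symm)
            · exact hEX1 V G A a b hc ha hb hab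
          · apply ihS
            · intro hu
              have e1 : x ∈ insert a Aᶜ := hu ▸ Set.mem_univ x
              have e2 : x' ∈ insert a Aᶜ := hu ▸ Set.mem_univ x'
              have f1 : x = a := by
                rcases e1 with e1 | e1
                · exact e1
                · exact absurd hx e1
              have f2 : x' = a := by
                rcases e2 with e2 | e2
                · exact e2
                · exact absurd hx' e2
              exact hxx (f1.trans f2.symm)
            · exact hEX1 V G Aᶜ b a (main_cross_compl hc) hb (fun h => h ha) hab.symm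
      · unfold SimpleGraph.Preconnected at hp
        push Not at hp
        obtain ⟨x, y, hxy⟩ := hp
        have hcl : ∀ u ∈ {u | G.Reachable x u}, ∀ w, w ∉ {u | G.Reachable x u} →
            ¬ G.Adj u w := by
          intro u hu w hw ha
          exact hw (SimpleGraph.Reachable.trans hu ha.reachable)
        refine hGL V G {u | G.Reachable x u} (fun u hu w hw => hcl u hu w hw) ?_ ?_
        · apply ihS
          · intro hu
            exact hxy (show y ∈ {u | G.Reachable x u} by rw [hu]; trivial)
          · exact hEX0 V G _ hcl
        · apply ihS
          · intro hu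
            have : x ∈ {u | G.Reachable x u}ᶜ := by rw [hu]; trivial
            exact this (SimpleGraph.Reachable.refl x)
          · refine hEX0 V G _ ?_
            intro u hu w hw ha
            simp only [Set.mem_compl_iff, not_not] at hw
            exact hcl w hw u hu ha.symm
  intro V _ G hT h1 h2
  exact key (Nat.card V) V G rfl hT h1 h2

end Pool.Agent.Helper64.CT
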