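import Pool.Agent.Helper64.CT.Stmts
import Pool.Agent.Helper60.HG.GEO

set_option autoImplicit false

namespace Pool.Agent.Helper64.CT

open Pool.Agent.Helper64.HG (Ovl Model Circ IC HellyCircle ST_GEO geo_circ_of_helly)

theorem res_TF {V : Type} {G : SimpleGraph V} (h : G.CliqueFree 3) : TF G := by
  classical
  intro a b c hab hbc hac
  exact h {a, b, c} (SimpleGraph.is3Clique_triple_iff.2 ⟨hab, hac, hbc⟩)

theorem st_RES (hM : ST_MAIN) (h1 : ST_GCI) (h2 : ST_GCII) (hG : ST_GEO) : ST_RES := by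
  intro V _ G
  have a : HellyCircle G → CI G ∧ CII G := by
    rintro ⟨M, _⟩
    have hc := geo_circ_of_helly M
    exact ⟨h1 V G hc, h2 V G hc⟩
  refine ⟨a, fun hcf => ⟨a, ?_⟩⟩
  rintro ⟨b1, b2⟩
  have hT := res_TF hcf
  exact (hG V G hT).2 (hM V G hT b1 b2)

end Pool.Agent.Helper64.CT
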