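import Pool.Agent.Helper31.CT.ALS
import Pool.Agent.Helper67.CT.ATT
import Pool.Agent.Helper45.CT.BET
import Pool.Agent.Helper71.CT.CFA
import Pool.Agent.Helper5.CT.CHN
import Pool.Agent.Helper51.CT.CL2
import Pool.Agent.Helper79.CT.CPT
import Pool.Agent.Helper5.CT.CYZ
import Pool.Agent.Helper67.CT.EX0
import Pool.Agent.Helper49.CT.EX1
import Pool.Agent.Helper67.CT.GCI
import Pool.Agent.Helper31.CT.GCII
import Pool.Agent.Helper63.CT.GEX
import Pool.Agent.Helper14.CT.HER
import Pool.Agent.Helper82.CT.L1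
import Pool.Agent.Helper82.CT.L2
import Pool.Agent.Helper45.CT.L2H
import Pool.Agent.Helper14.CT.L3A
import Pool.Agent.Helper67.CT.L3C
import Pool.Agent.Helper7.CT.L3D
import Pool.Agent.Helper91.CT.LC
import Pool.Agent.Helper64.CT.MAIN
import Pool.Agent.Helper24.CT.POS
import Pool.Agent.Helper28.CT.PRI
import Pool.Agent.Helper64.CT.RES
import Pool.Agent.Helper2.CT.RZZ
import Pool.Agent.Helper61.CT.SD1
import Pool.Agent.Helper61.CT.SD2
import Pool.Agent.Helper52.CT.SN
import Pool.Agent.Helper57.CT.SPG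
import Pool.Agent.Helper78.CT.STEP
import Pool.Agent.Helper52.CT.TAU
import Pool.Agent.Helper45.HG.ROT
import Pool.Agent.Helper61.HG.XFER
import Pool.Agent.Helper7.HG.GLUE0
import Pool.Agent.Helper60.HG.GEO

/-! Helly circle graphs without triangles (MP_866009_co): the final theorem. -/

set_option autoImplicit false

namespace Pool.Agent.Helper64.CT

theorem final : ST_RES := by
  have hSD2 : ST_SD2 := st_SD2 st_SD1
  have hGCI : ST_GCI := st_GCI hSD2 Pool.Agent.Helper63.CT.st_GEX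
  have hGCII : ST_GCII := st_GCII st_CFA HG.st_ROT
  have hLC : ST_LC := st_LC st_ATT st_CL2
  have hL1 : ST_L1 := st_L1 st_ALS
  have hL2H : ST_L2H := st_L2H hLC st_ALS st_BET hL1
  have hL2 : ST_L2 := st_L2 hL2H st_ALS
  have hL3A : ST_L3A := st_L3A hL2 st_BET
  have hL3C : ST_L3C := st_L3C st_ALS
  have hL3D : ST_L3D := st_L3D hL2 st_BET st_ALS
  have hPRI : ST_PRI := st_PRI hL3A hL3C hL3D
  have hPOS : ST_POS := st_POS st_CHN
  have hRZZ : ST_RZZ := st_RZZ st_SD1 Pool.Agent.Helper63.CT.st_GEX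
  have hSTEP : ST_STEP := st_STEP hPOS st_TAU st_CPT st_CYZ hRZZ
  have hSN : ST_SN := st_SN hSTEP
  have hMAIN : ST_MAIN :=
    st_MAIN (st_SPG HG.st_ROT HG.st_XFER) st_HER st_EX0 st_EX1 hPRI hSN HG.st_GLUE0
  exact st_RES hMAIN hGCI hGCII HG.st_GEO

end Pool.Agent.Helper64.CT
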