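import Pool.Agent.Helper64.HG.Pub

/-! Helly circle graphs without triangles (MP_866009_co): the notions in the statement. -/

set_option autoImplicit false

namespace Pool.Agent.Helper64.CT

variable {V : Type}

/-- the vertices of `G - N[x]` -/
def Far (G : SimpleGraph V) (x : V) : Set V := {y | y ≠ x ∧ ¬ G.Adj x y}

/-- `y` and `z` lie in the same connected component of `G - N[x]` -/
def Comp (G : SimpleGraph V) (x y z : V) : Prop :=
  ∃ (hy : y ∈ Far G x) (hz : z ∈ Far G x), (G.induce (Far G x)).Reachable ⟨y, hy⟩ ⟨z, hz⟩

/-- the attachments of the component of `G - N[x]` containing `y`: the neighbours of `x` with a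
neighbour in this component -/
def Att (G : SimpleGraph V) (x y : V) : Set V := {n | G.Adj x n ∧ ∃ u, Comp G x y u ∧ G.Adj n u}

/-- `u` has a neighbour and a non-neighbour in `N` -/
def Mixed (G : SimpleGraph V) (u : V) (N : Set V) : Prop :=
  (∃ n ∈ N, G.Adj u n) ∧ ∃ n ∈ N, ¬ G.Adj u n

/-- the components of `G - N[x]` containing `y` and `z` are distinct and conflict: each of them
has a vertex that is adjacent to some but not to all attachments of the other one -/
def Conf (G : SimpleGraph V) (x y z : V) : Prop :=
  ¬ Comp G x y z ∧ (∃ u, Comp G x y u ∧ Mixed G u (Att G x z)) ∧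
    ∃ u, Comp G x z u ∧ Mixed G u (Att G x y)

/-- no three neighbours of a vertex form an asteroidal triple of `G` -/
def CI (G : SimpleGraph V) : Prop :=
  ¬ ∃ v a b c, G.Adj v a ∧ G.Adj v b ∧ G.Adj v c ∧ Comp G c a b ∧ Comp G a b c ∧ Comp G b a c

/-- for every `x` the components of `G - N[x]` can be coloured with two colours such that
conflicting components get different colours -/
def CII (G : SimpleGraph V) : Prop :=
  ∀ x, ∃ side : V → Bool, (∀ y z, Comp G x y z → side y = side z) ∧
    ∀ y z, Conf G x y z → side y ≠ side z

end Pool.Agent.Helper64.CT
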