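import Pool.Agent.Helper64.CT.Defs

/-! Helly circle graphs without triangles (MP_866009_co): statements of the modules. -/

set_option autoImplicit false

namespace Pool.Agent.Helper64.CT

open Pool.Agent.Helper64.HG (Ovl Model Circ IC HellyCircle)

/-! ### Geometry -/

/-- adjacent far vertices are on the same side -/
def ST_SD1 : Prop := ∀ (V : Type) (G : SimpleGraph V) (S : Set V) (l r : V → ℝ), MOn G S l r →
  ∀ b ∈ S, ∀ x ∈ S, ∀ y ∈ S, x ∈ Far G b → y ∈ Far G b → G.Adj x y →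
    (Ins l r b x ↔ Ins l r b y)

def ST_SD2 : Prop := ∀ (V : Type) (G : SimpleGraph V) (l r : V → ℝ), Model G l r →
  ∀ b x y, Comp G b x y → (Ins l r b x ↔ Ins l r b y)

/-- of three pairwise disjoint chords crossing a fourth one exactly one is between the other
two -/
def ST_GEX : Prop := ∀ (V : Type) (G : SimpleGraph V) (S : Set V) (l r : V → ℝ), MOn G S l r →
  ∀ n ∈ S, ∀ a ∈ S, ∀ b ∈ S, ∀ c ∈ S, G.Adj n a → G.Adj n b → G.Adj n c → a ≠ b → a ≠ c → b ≠ c →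
    ¬ G.Adj a b → ¬ G.Adj a c → ¬ G.Adj b c →
    Ex1 (¬ (Ins l r c a ↔ Ins l r c b)) (¬ (Ins l r a b ↔ Ins l r a c))
      (¬ (Ins l r b a ↔ Ins l r b c))

def ST_GCI : Prop := ∀ (V : Type) (G : SimpleGraph V), Circ G → CI G

/-- components on the same side of a chord do not conflict -/
def ST_CFA : Prop := ∀ (V : Type) (G : SimpleGraph V) (x : V) (S : Set V) (l r q : V → ℝ),
  (∀ u ∈ S, l u < r u) → (∀ u ∈ S, ∀ v ∈ S, u ≠ v → l u ≠ l v ∧ r u ≠ r v) →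
  (∀ u ∈ S, ∀ v ∈ S, l u ≠ r v) → (∀ u ∈ S, ∀ v ∈ S, (G.Adj u v ↔ Ovl l r u v)) →
  (∀ n, G.Adj x n → ∀ u ∈ S, (G.Adj n u ↔ l u < q n ∧ q n < r u)) →
  ∀ y z, (∀ u, Comp G x y u → u ∈ S) → (∀ u, Comp G x z u → u ∈ S) → ¬ Conf G x y z

def ST_GCII : Prop := ∀ (V : Type) [Finite V] (G : SimpleGraph V), Circ G → CII G

/-! ### Splits -/

def ST_SPG : Prop := ∀ (V : Type) [Finite V] (G : SimpleGraph V) (A : Set V) (a b : V),
  Cross G A → a ∈ A → b ∉ A → G.Adj a b → Circ (G.induce (insert b A)) →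
  Circ (G.induce (insert a Aᶜ)) → Circ G

def ST_HER : Prop := ∀ (V : Type) (G : SimpleGraph V) (S : Set V),
  (∀ x y z : S, Comp G x.1 y.1 z.1 → Comp (G.induce S) x y z) → CI G → CII G →
    CI (G.induce S) ∧ CII (G.induce S)

def ST_EX0 : Prop := ∀ (V : Type) (G : SimpleGraph V) (S : Set V),
  (∀ x ∈ S, ∀ y, y ∉ S → ¬ G.Adj x y) →
  ∀ x y z : S, Comp G x.1 y.1 z.1 → Comp (G.induce S) x y z

def ST_EX1 : Prop := ∀ (V : Type) (G : SimpleGraph V) (A : Set V) (a b : V), Cross G A → a ∈ A →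
  b ∉ A → G.Adj a b →
  ∀ x y z : (insert b A : Set V), Comp G x.1 y.1 z.1 → Comp (G.induce (insert b A)) x y z

/-! ### Clusters in prime graphs -/

def ST_ATT : Prop := ∀ (V : Type) (G : SimpleGraph V), G.Preconnected → ∀ c, ∀ x ∈ Far G c,
  (Att G c x).Nonempty

def ST_CL2 : Prop := ∀ (V : Type) (G : SimpleGraph V) (c x y : V), x ∈ Far G c → y ∈ Far G c →
  Le G c x y → ¬ Clu G c x y →
  (∀ z, Clu G c x z → Le G c z y) ∧
  (∀ u, Comp G c y u → (∀ z n, Clu G c x z → n ∈ Att G c z → G.Adj u n) ∨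
    (∀ z n, Clu G c x z → n ∈ Att G c z → ¬ G.Adj u n))

def ST_LC : Prop := ∀ (V : Type) (G : SimpleGraph V), G.Preconnected → TF G → Prime G →
  ∀ c, ∀ x ∈ Far G c, ∀ y ∈ Far G c, Clu G c x y

/-! ### Two nonadjacent vertices -/

def ST_ALS : Prop := ∀ (V : Type) (G : SimpleGraph V) (a c y : V), a ∈ Far G c →
  Alpha G a c y →
    Alpha G c a y ∧ (∀ z, Comp G a y z ↔ Comp G c y z) ∧ Att G a y = Att G c y

def ST_BET : Prop := ∀ (V : Type) (G : SimpleGraph V) (a c y : V), a ∈ Far G c → y ∈ Far G c →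
  ¬ Comp G c a y → ¬ Alpha G a c y → ∀ z, Comp G c y z → Comp G a c z

def ST_L1 : Prop := ∀ (V : Type) (G : SimpleGraph V) (s : V → V → Bool), TF G → CI G → Sys G s →
  ∀ a c y a', a ∈ Far G c → Alpha G a c y → Comp G c a a' → Mixed G a' (Att G c y) → s a y = s a c

def ST_L2H : Prop := ∀ (V : Type) (G : SimpleGraph V) (s : V → V → Bool), G.Preconnected →
  TF G → CI G → Prime G → Sys G s → ∀ a c y, a ∈ Far G c → Alpha G a c y →
    (s a y = s a c ∧ s c y ≠ s c a) ∨ (s a y ≠ s a c ∧ s c y = s c a) ∨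
    (s c y = s c a ∧ (∀ z, Comp G c y z → z = y) ∧ Att G a c = Att G c y ∧
      ∃ u, Comp G a c u ∧ Mixed G u (Att G c y))

def ST_L2 : Prop := ∀ (V : Type) (G : SimpleGraph V) (s : V → V → Bool), G.Preconnected →
  TF G → CI G → Prime G → Sys G s → ∀ a c y, a ∈ Far G c → Alpha G a c y →
    ¬ (s a y ≠ s a c ∧ s c y ≠ s c a) ∧
    (s a y = s a c → s c y = s c a → (∀ z, Comp G c y z → z = y) ∧ Att G a c = Att G c y ∧
      Att G c a = Att G c y ∧ (∃ u, Comp G a c u ∧ Mixed G u (Att G c y)) ∧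
      ∃ u, Comp G c a u ∧ Mixed G u (Att G c y))

/-! ### Three neighbours of a vertex -/

def ST_L3A : Prop := ∀ (V : Type) (G : SimpleGraph V) (s : V → V → Bool), G.Preconnected →
  TF G → CI G → Prime G → Sys G s → ∀ x a b c, G.Adj x a → G.Adj x b → G.Adj x c →
    a ≠ b → a ≠ c → b ≠ c → s c a ≠ s c b → s a b ≠ s a c → False

def ST_L3C : Prop := ∀ (V : Type) (G : SimpleGraph V), TF G →
  ∀ x a b c, G.Adj x a → G.Adj x b → G.Adj x c → a ≠ b → a ≠ c → b ≠ c →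
    ¬ Comp G c a b → Comp G a b c → Comp G b a c → Conf G c a b

def ST_L3D : Prop := ∀ (V : Type) (G : SimpleGraph V) (s : V → V → Bool), G.Preconnected →
  TF G → CI G → Prime G → Sys G s → ∀ x a b c, G.Adj x a → G.Adj x b → G.Adj x c →
    a ≠ b → a ≠ c → b ≠ c → ¬ Comp G c a b → ¬ Comp G a b c → s c a = s c b → s a b = s a c →
    s b a = s b c → False

def ST_PRI : Prop := ∀ (V : Type) (G : SimpleGraph V), G.Preconnected → TF G → CI G → CII G →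
  Prime G → ∃ s, SNS G s

/-! ### Separation systems -/

/-- chain of intervals covering `(L, R)` -/
def ST_CHN : Prop := ∀ (V : Type) [Finite V] (F : Set V) (l r : V → ℝ) (L R : ℝ), L < R →
  (∀ v ∈ F, l v < r v) → (∀ u ∈ F, ∀ v ∈ F, l u = l v → u = v) →
  (∀ u ∈ F, ∀ v ∈ F, r u = r v → u = v) → (∀ u ∈ F, ∀ v ∈ F, l u ≠ r v) →
  (∀ v ∈ F, l v ≠ L ∧ r v ≠ L ∧ l v ≠ R ∧ r v ≠ R) →
  (∀ t, L < t → t < R → (∀ v ∈ F, t ≠ l v ∧ t ≠ r v) → ∃ v ∈ F, l v < t ∧ t < r v) →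
  ∃ (m : ℕ) (y : ℕ → V), (∀ i ≤ m, y i ∈ F) ∧ (l (y 0) < L ∧ L < r (y 0)) ∧
    (∀ i < m, l (y (i + 1)) < r (y i) ∧ r (y i) < r (y (i + 1)) ∧ r (y i) < R ∧
      L < l (y (i + 1))) ∧
    (∀ i, i + 2 ≤ m → r (y i) < l (y (i + 2))) ∧ (l (y m) < R ∧ R < r (y m))

/-- position lemma -/
def ST_POS : Prop := ∀ (V : Type) [Finite V] (G : SimpleGraph V) (T : Set V) (l r : V → ℝ)
  (τ : V → Prop), TF G → MOn G T l r →
  (∀ y ∈ T, ∀ y' ∈ T, y' ∈ Far G y → (τ y ↔ Ins l r y y') ∨ (τ y' ↔ Ins l r y' y)) →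
  (∃ t : ℝ, (∀ y ∈ T, t ≠ l y ∧ t ≠ r y) ∧ ∀ y ∈ T, ((l y < t ∧ t < r y) ↔ τ y)) ∨
  (∃ L : List V, IC G L ∧ 4 ≤ L.length ∧ (∀ y ∈ L, y ∈ T) ∧
    (∀ y ∈ L, ∀ y' ∈ L, y' ∈ Far G y → (τ y ↔ Ins l r y y')) ∧
    ∀ t : ℝ, (∀ y ∈ L, t ≠ l y ∧ t ≠ r y) → ∃ y ∈ L, ¬ ((l y < t ∧ t < r y) ↔ τ y))

/-- an end of a pencil of pairwise disjoint chords -/
def ST_TAU : Prop := ∀ (V : Type) (N : Set V) (D : V → V → Bool),
  (∀ a ∈ N, ∀ b ∈ N, ∀ c ∈ N, a ≠ b → a ≠ c → b ≠ c →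
    Ex1 (D c a ≠ D c b) (D a b ≠ D a c) (D b a ≠ D b c)) →
  ∃ τ : V → Bool, ∀ p ∈ N, ∀ q ∈ N, p ≠ q → (τ p = D p q ↔ ¬ τ q = D q p)

def ST_CPT : Prop := ∀ (V : Type) (G : SimpleGraph V) (s : V → V → Bool) (T : Set V) (z : V)
  (l r : V → ℝ) (ε : V → Bool), TF G → SNS G s → z ∉ T → MOn G T l r → Rlz G T l r s ε →
  ∀ p ∈ T, G.Adj z p → ∀ y ∈ T, ∀ y' ∈ T, y ∈ Far G z → y' ∈ Far G z → y' ∈ Far G y →
    s y z = s y y' ∨ s y' z = s y' y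

def ST_CYZ : Prop := ∀ (V : Type) (G : SimpleGraph V) (s : V → V → Bool) (T : Set V) (z : V)
  (l r : V → ℝ) (ε : V → Bool) (τ : V → Prop) (L : List V), TF G → SNS G s → z ∉ T →
  MOn G T l r → Rlz G T l r s ε → (∃ p ∈ T, G.Adj z p) →
  (∀ y ∈ T, y ∈ Far G z → (τ y ↔ s y z = ε y)) →
  (∀ p ∈ T, ∀ q ∈ T, G.Adj z p → G.Adj z q → p ≠ q →
    ¬ ((τ p ↔ Ins l r p q) ∧ (τ q ↔ Ins l r q p))) →
  IC G L → 4 ≤ L.length → (∀ y ∈ L, y ∈ T) →
  (∀ y ∈ L, ∀ y' ∈ L, y' ∈ Far G y → (τ y ↔ Ins l r y y')) →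
  (∀ t : ℝ, (∀ y ∈ L, t ≠ l y ∧ t ≠ r y) → ∃ y ∈ L, ¬ ((l y < t ∧ t < r y) ↔ τ y)) → False

def ST_RZZ : Prop := ∀ (V : Type) (G : SimpleGraph V) (s : V → V → Bool) (T : Set V) (z : V)
  (l r : V → ℝ) (ε : V → Bool), TF G → SNS G s → z ∉ T → (G.induce T).Preconnected →
  MOn G (insert z T) l r →
  (∀ y ∈ T, ∀ x ∈ insert z T, x ∈ Far G y → (Ins l r y x ↔ s y x = ε y)) →
  ∃ b : Bool, ∀ x ∈ T, x ∈ Far G z → (Ins l r z x ↔ s z x = b)

def ST_STEP : Prop := ∀ (V : Type) [Finite V] (G : SimpleGraph V) (s : V → V → Bool) (T : Set V)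
  (z : V) (l r : V → ℝ) (ε : V → Bool), TF G → SNS G s → z ∉ T → (G.induce T).Preconnected →
  (∃ p ∈ T, G.Adj z p) → MOn G T l r → Rlz G T l r s ε →
  ∃ (l' r' : V → ℝ) (ε' : V → Bool), MOn G (insert z T) l' r' ∧ Rlz G (insert z T) l' r' s ε'

def ST_SN : Prop := ∀ (V : Type) [Finite V] (G : SimpleGraph V) (s : V → V → Bool),
  G.Preconnected → TF G → SNS G s → Circ G

/-! ### The result -/

def ST_MAIN : Prop := ∀ (V : Type) [Finite V] (G : SimpleGraph V), TF G → CI G → CII G → Circ G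

def ST_RES : Prop := ∀ (V : Type) [Finite V] (G : SimpleGraph V),
  (HellyCircle G → CI G ∧ CII G) ∧ (G.CliqueFree 3 → (HellyCircle G ↔ CI G ∧ CII G))

end Pool.Agent.Helper64.CT
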